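import Mathlib

set_option autoImplicit false

namespace Pool.Agent.Helper29.GC

open Finset

section
variable {V E : Type*} [Fintype V] [DecidableEq V] [Fintype E] [DecidableEq E]

/-- Exponent vector of the orientation in which the edges of `D` are directed from `s` to `t` and
all other edges from `t` to `s` (number of outgoing edges at each vertex). -/
noncomputable def out (s t : E → V) (D : Finset E) : V →₀ ℕ :=
  ∑ e ∈ D, Finsupp.single (s e) 1 + ∑ e ∈ Dᶜ, Finsupp.single (t e) 1

omit [Fintype V] in
theorem out_apply (s t : E → V) (D : Finset E) (v : V) :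
    out s t D v = #{e ∈ D | s e = v} + #{e ∈ Dᶜ | t e = v} := by
  classical
  unfold out
  simp only [Finsupp.add_apply, Finsupp.finsetSum_apply, Finsupp.single_apply]
  rw [Finset.card_filter, Finset.card_filter]

omit [Fintype V] [DecidableEq V] in
theorem prod_expand (s t : E → V) :
    (∏ e, (MvPolynomial.X (s e) - MvPolynomial.X (t e) : MvPolynomial V ℤ)) =
      ∑ D : Finset E, MvPolynomial.monomial (out s t D) ((-1) ^ #Dᶜ) := by
  classical
  simp only [sub_eq_add_neg]
  rw [Finset.prod_add, Finset.powerset_univ]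
  refine Finset.sum_congr rfl fun D _ => ?_
  have e1 : ∏ e ∈ D, (MvPolynomial.X (s e) : MvPolynomial V ℤ) =
      MvPolynomial.monomial (∑ e ∈ D, Finsupp.single (s e) 1) 1 := by
    rw [MvPolynomial.monomial_sum_one]; rfl
  have e2 : ∏ e ∈ univ \ D, (-MvPolynomial.X (t e) : MvPolynomial V ℤ) =
      MvPolynomial.monomial (∑ e ∈ Dᶜ, Finsupp.single (t e) 1) ((-1) ^ #Dᶜ) := by
    rw [← Finset.compl_eq_univ_sdiff, Finset.prod_neg, ← mul_one ((-1 : ℤ) ^ #Dᶜ),
      ← MvPolynomial.C_mul_monomial, MvPolynomial.monomial_sum_one]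
    simp only [map_pow, map_neg, map_one]
    rfl
  rw [e1, e2, MvPolynomial.monomial_mul, one_mul]
  rfl

omit [Fintype V] in
theorem coeff_prod (s t s' t' : E → V) (T : V →₀ ℕ) :
    MvPolynomial.coeff T ((∏ e, (MvPolynomial.X (s e) - MvPolynomial.X (t e) : MvPolynomial V ℤ)) *
      ∏ e, (MvPolynomial.X (s' e) - MvPolynomial.X (t' e))) =
      ∑ D : Finset E, ∑ D' : Finset E,
        if out s t D + out s' t' D' = T then (-1 : ℤ) ^ #Dᶜ * (-1) ^ #D'ᶜ else 0 := by
  classical
  rw [prod_expand, prod_expand, Finset.sum_mul_sum]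
  simp only [MvPolynomial.coeff_sum, MvPolynomial.monomial_mul, MvPolynomial.coeff_monomial]

/-- The sum of squares. -/
theorem sum_sq {ι β : Type*} [Fintype ι] [DecidableEq ι] [DecidableEq β] (g : ι → β) (σ : ι → ℤ)
    (ok : β → Prop) [DecidablePred ok] (i0 : ι) (h0 : ok (g i0)) (hu : ∀ i, g i = g i0 → i = i0)
    (hσ : σ i0 ^ 2 = 1) :
    0 < ∑ i, ∑ j, if g i = g j ∧ ok (g i) then σ i * σ j else 0 := by
  have key : (∑ i, ∑ j, if g i = g j ∧ ok (g i) then σ i * σ j else 0) =
      ∑ b ∈ univ.image g, if ok b then (∑ i, if g i = b then σ i else 0) ^ 2 else 0 := by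
    have h1 : ∀ b, (if ok b then (∑ i, if g i = b then σ i else 0) ^ 2 else 0) =
        ∑ i, ∑ j, if g i = b then (if g j = b ∧ ok b then σ i * σ j else 0) else 0 := by
      intro b
      by_cases hb : ok b
      · rw [if_pos hb, sq, Finset.sum_mul_sum]
        refine Finset.sum_congr rfl fun i _ => Finset.sum_congr rfl fun j _ => ?_
        by_cases h1 : g i = b <;> by_cases h2 : g j = b <;> simp [h1, h2, hb]
      · rw [if_neg hb]
        symm
        refine Finset.sum_eq_zero fun i _ => Finset.sum_eq_zero fun j _ => ?_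
        simp [hb]
    simp only [h1]
    symm
    rw [Finset.sum_comm]
    refine Finset.sum_congr rfl fun i _ => ?_
    rw [Finset.sum_comm]
    refine Finset.sum_congr rfl fun j _ => ?_
    rw [Finset.sum_ite_eq, if_pos (Finset.mem_image_of_mem g (Finset.mem_univ i))]
    by_cases h : g i = g j
    · simp [h]
    · have h' : ¬ g j = g i := fun e => h e.symm
      simp [h, h']
  rw [key]
  refine Finset.sum_pos' (fun b _ => by split_ifs <;> positivity)
    ⟨g i0, Finset.mem_image_of_mem g (Finset.mem_univ i0), ?_⟩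
  rw [if_pos h0]
  have : (∑ i, if g i = g i0 then σ i else 0) = σ i0 := by
    rw [Finset.sum_eq_single i0]
    · simp
    · intro i _ hi
      rw [if_neg fun h => hi (hu i h)]
    · intro h; exact absurd (Finset.mem_univ _) h
  rw [this, hσ]
  exact one_pos

omit [Fintype V] in
/-- An acyclic orientation is determined by its numbers of outgoing edges. -/
theorem out_unique (s t : E → V) (r : V → ℝ) (hr : ∀ e, r (s e) < r (t e)) (D : Finset E)
    (h : out s t D = out s t univ) : D = univ := by
  by_contra hD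
  have hne : (Dᶜ).Nonempty := by
    rw [Finset.nonempty_iff_ne_empty]
    intro h0
    exact hD (by rwa [Finset.compl_eq_empty_iff] at h0)
  obtain ⟨e, he, hmax⟩ := Finset.exists_max_image Dᶜ (fun e => r (t e)) hne
  have h1 := DFunLike.congr_fun h (t e)
  rw [out_apply, out_apply] at h1
  have h2 : #{e' ∈ (univ : Finset E) | s e' = t e} =
      #{e' ∈ D | s e' = t e} + #{e' ∈ Dᶜ | s e' = t e} := by
    rw [← Finset.card_union_of_disjoint, ← Finset.filter_union, Finset.union_compl]
    exact Finset.disjoint_filter_filter disjoint_compl_right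
  have h3 : #{e' ∈ (univ : Finset E)ᶜ | t e' = t e} = 0 := by simp
  have h4 : 0 < #{e' ∈ Dᶜ | t e' = t e} :=
    Finset.card_pos.2 ⟨e, Finset.mem_filter.2 ⟨he, rfl⟩⟩
  have h5 : 0 < #{e' ∈ Dᶜ | s e' = t e} := by omega
  obtain ⟨e', he'⟩ := Finset.card_pos.1 h5
  rw [Finset.mem_filter] at he'
  have h6 := hmax e' he'.1
  have h7 := hr e'
  rw [he'.2] at h7
  exact absurd h6 (not_le.2 h7)

omit [Fintype V] in
theorem out_add_compl (s t : E → V) (D : Finset E) (v : V) :
    out s t D v + out s t Dᶜ v = #{e | s e = v} + #{e | t e = v} := by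
  rw [out_apply, out_apply, compl_compl]
  have h1 : #{e ∈ (univ : Finset E) | s e = v} = #{e ∈ D | s e = v} + #{e ∈ Dᶜ | s e = v} := by
    rw [← Finset.card_union_of_disjoint, ← Finset.filter_union, Finset.union_compl]
    exact Finset.disjoint_filter_filter disjoint_compl_right
  have h2 : #{e ∈ (univ : Finset E) | t e = v} = #{e ∈ D | t e = v} + #{e ∈ Dᶜ | t e = v} := by
    rw [← Finset.card_union_of_disjoint, ← Finset.filter_union, Finset.union_compl]
    exact Finset.disjoint_filter_filter disjoint_compl_right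
  omega

/-- **Doubling lemma.** A graph that is the double (along the fixed vertices of an involution) of
a graph with an acyclic orientation with two edges out of and two edges into every vertex, apart
from the fixed vertices, which have two edges out or two edges in, is 3-choosable. -/
theorem double_choosable (θ : V → V) (hθ : ∀ v, θ (θ v) = v) (M : Finset V)
    (hMθ : ∀ v ∈ M, θ v ∉ M) (hV : ∀ v, v ∈ M ∨ θ v = v ∨ θ v ∈ M)
    (s t : E → V) (hs : ∀ e, s e ∈ M ∨ θ (s e) = s e) (ht : ∀ e, t e ∈ M ∨ θ (t e) = t e)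
    (r : V → ℝ) (hr : ∀ e, r (s e) < r (t e))
    (hM : ∀ v ∈ M, #{e | s e = v} = 2 ∧ #{e | t e = v} = 2)
    (hZ : ∀ v, θ v = v → (#{e | s e = v} = 2 ∧ #{e | t e = v} = 0) ∨
      (#{e | s e = v} = 0 ∧ #{e | t e = v} = 2))
    (L : V → Finset ℕ) (hL : ∀ v, 3 ≤ #(L v)) :
    ∃ c : V → ℕ, (∀ v, c v ∈ L v) ∧
      ∀ e, c (s e) ≠ c (t e) ∧ c (θ (s e)) ≠ c (θ (t e)) := by
  classical
  have hne : ∀ v ∈ M, θ v ≠ v := fun v hv h => hMθ v hv (by rw [h]; exact hv)
  set P : MvPolynomial V ℤ := (∏ e, (MvPolynomial.X (s e) - MvPolynomial.X (t e))) *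
    ∏ e, (MvPolynomial.X (θ (s e)) - MvPolynomial.X (θ (t e))) with hP
  set T : V →₀ ℕ := Finsupp.equivFunOnFinite.symm (fun _ => 2) with hT
  have hTv : ∀ v, T v = 2 := fun v => rfl
  -- mirrored exponents
  have hmir : ∀ (D : Finset E) (v : V), out (fun e => θ (s e)) (fun e => θ (t e)) D v =
      out s t D (θ v) := by
    intro D v
    rw [out_apply, out_apply]
    have h1 : ∀ x, θ x = v ↔ x = θ v := fun x => ⟨fun h => by rw [← h, hθ], fun h => by rw [h, hθ]⟩
    simp only [h1]
  have hout0 : ∀ (D : Finset E) (v : V), v ∉ M → θ v ≠ v → out s t D v = 0 := by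
    intro D v hv1 hv2
    rw [out_apply]
    have h1 : ∀ e, s e ≠ v := fun e h => by
      rcases hs e with h' | h'
      · exact hv1 (h ▸ h')
      · exact hv2 (by rw [← h]; exact h')
    have h2 : ∀ e, t e ≠ v := fun e h => by
      rcases ht e with h' | h'
      · exact hv1 (h ▸ h')
      · exact hv2 (by rw [← h]; exact h')
    simp [h1, h2]
  have hdegM : ∀ (D : Finset E), ∀ v ∈ M, out s t D v + out s t Dᶜ v = 4 := by
    intro D v hv
    rw [out_add_compl, (hM v hv).1, (hM v hv).2]
  have hdegZ : ∀ (D : Finset E), ∀ v, θ v = v → out s t D v + out s t Dᶜ v = 2 := by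
    intro D v hv
    rw [out_add_compl]
    rcases hZ v hv with h | h <;> rw [h.1, h.2]
  have hcond : ∀ D D' : Finset E,
      (out s t D + out (fun e => θ (s e)) (fun e => θ (t e)) D'ᶜ = T) ↔
      (out s t D = out s t D' ∧ ∀ v ∈ M, out s t D v = 2) := by
    intro D D'
    constructor
    · intro h
      have h0 : ∀ v, out s t D v + out s t D'ᶜ (θ v) = 2 := by
        intro v
        have := DFunLike.congr_fun h v
        rwa [Finsupp.add_apply, hmir, hTv] at this
      have hA : ∀ v ∈ M, out s t D v = 2 := by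
        intro v hv
        have h1 := h0 v
        rw [hout0 D'ᶜ (θ v) (hMθ v hv) (by rw [hθ]; exact (hne v hv).symm)] at h1
        exact h1
      refine ⟨?_, hA⟩
      ext v
      by_cases hv : v ∈ M
      · have h1 := h0 (θ v)
        rw [hθ, hout0 D (θ v) (hMθ v hv) (by rw [hθ]; exact (hne v hv).symm)] at h1
        have h2 := hdegM D' v hv
        have h3 := hA v hv
        omega
      · by_cases hv' : θ v = v
        · have h1 := h0 v
          rw [hv'] at h1
          have h2 := hdegZ D' v hv'
          omega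
        · rw [hout0 D v hv hv', hout0 D' v hv hv']
    · rintro ⟨h1, h2⟩
      ext v
      rw [Finsupp.add_apply, hmir, hTv]
      by_cases hv : v ∈ M
      · rw [hout0 D'ᶜ (θ v) (hMθ v hv) (by rw [hθ]; exact (hne v hv).symm), h2 v hv]
      · by_cases hv' : θ v = v
        · rw [hv']
          have h3 := hdegZ D' v hv'
          have h4 := DFunLike.congr_fun h1 v
          omega
        · have hv3 : θ v ∈ M := by
            rcases hV v with h | h | h
            · exact absurd h hv
            · exact absurd h hv'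
            · exact h
          rw [hout0 D v hv hv']
          have h3 := hdegM D' (θ v) hv3
          have h4 := DFunLike.congr_fun h1 (θ v)
          have h5 := h2 (θ v) hv3
          omega
  have hcoeff : MvPolynomial.coeff T P ≠ 0 := by
    have h1 : MvPolynomial.coeff T P = (-1) ^ Fintype.card E *
        ∑ D : Finset E, ∑ D' : Finset E,
          if out s t D = out s t D' ∧ (∀ v ∈ M, out s t D v = 2) then
            (-1 : ℤ) ^ #Dᶜ * (-1) ^ #D'ᶜ else 0 := by
      rw [hP, coeff_prod, Finset.mul_sum]
      refine Finset.sum_congr rfl fun D _ => ?_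
      rw [Finset.mul_sum]
      rw [← Equiv.sum_comp (Equiv.mk (fun D' : Finset E => D'ᶜ) (fun D' => D'ᶜ)
        (fun D' => compl_compl D') (fun D' => compl_compl D'))]
      refine Finset.sum_congr rfl fun D' _ => ?_
      simp only [Equiv.coe_fn_mk, hcond D D', compl_compl]
      split_ifs with h
      · have h3 : ((-1 : ℤ)) ^ #D' = (-1) ^ Fintype.card E * (-1) ^ #D'ᶜ := by
          have h4 : #D'ᶜ + #D' = Fintype.card E := by
            rw [Finset.card_compl]
            have := Finset.card_le_univ D'
            omega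
          rw [← h4, pow_add]
          have h5 : ((-1 : ℤ)) ^ #D'ᶜ * (-1) ^ #D'ᶜ = 1 := by
            rw [← mul_pow]; norm_num
          linear_combination (-(-1 : ℤ) ^ #D') * h5
        rw [h3]; ring
      · rw [mul_zero]
    have h2 : 0 < ∑ D : Finset E, ∑ D' : Finset E,
          if out s t D = out s t D' ∧ (∀ v ∈ M, out s t D v = 2) then
            (-1 : ℤ) ^ #Dᶜ * (-1) ^ #D'ᶜ else 0 := by
      refine sum_sq (out s t) (fun D => (-1 : ℤ) ^ #Dᶜ) (fun b => ∀ v ∈ M, b v = 2) univ ?_ ?_ ?_
      · intro v hv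
        rw [out_apply]
        simp [(hM v hv).1]
      · exact fun D hD => out_unique s t r hr D hD
      · simp
    rw [h1]
    exact mul_ne_zero (pow_ne_zero _ (by norm_num)) h2.ne'
  have hhom : P.IsHomogeneous (Fintype.card E + Fintype.card E) := by
    rw [hP]
    refine MvPolynomial.IsHomogeneous.mul ?_ ?_
    · have := MvPolynomial.IsHomogeneous.prod (univ : Finset E)
        (fun e => (MvPolynomial.X (s e) - MvPolynomial.X (t e) : MvPolynomial V ℤ)) (fun _ => 1)
        (fun e _ => (MvPolynomial.isHomogeneous_X _ _).sub (MvPolynomial.isHomogeneous_X _ _))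
      simpa using this
    · have := MvPolynomial.IsHomogeneous.prod (univ : Finset E)
        (fun e => (MvPolynomial.X (θ (s e)) - MvPolynomial.X (θ (t e)) : MvPolynomial V ℤ))
        (fun _ => 1)
        (fun e _ => (MvPolynomial.isHomogeneous_X _ _).sub (MvPolynomial.isHomogeneous_X _ _))
      simpa using this
  have hP0 : P ≠ 0 := by
    intro h; rw [h] at hcoeff; simp at hcoeff
  have hdeg : P.totalDegree = T.degree := by
    rw [hhom.totalDegree hP0]
    have := hhom hcoeff
    rw [← this, Finsupp.degree_eq_weight_one]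
    rfl
  obtain ⟨z, hz1, hz2⟩ := MvPolynomial.combinatorial_nullstellensatz_exists_eval_nonzero P T hcoeff
    hdeg (fun v => (L v).image (fun k : ℕ => (k : ℤ))) (fun v => by
      rw [Finset.card_image_of_injective _ Nat.cast_injective, hTv]
      exact hL v)
  have hz3 : ∀ v, ∃ k ∈ L v, (k : ℤ) = z v := fun v => by
    have := hz1 v
    rwa [Finset.mem_image] at this
  choose c hc1 hc2 using hz3
  refine ⟨c, hc1, fun e => ?_⟩
  rw [hP, map_mul, map_prod, map_prod] at hz2
  have hz4 := left_ne_zero_of_mul hz2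
  have hz5 := right_ne_zero_of_mul hz2
  rw [Finset.prod_ne_zero_iff] at hz4 hz5
  have h1 := hz4 e (Finset.mem_univ e)
  have h2 := hz5 e (Finset.mem_univ e)
  rw [map_sub, MvPolynomial.eval_X, MvPolynomial.eval_X, ← hc2, ← hc2] at h1 h2
  exact ⟨fun h => h1 (by rw [h]; simp), fun h => h2 (by rw [h]; simp)⟩

end

end Pool.Agent.Helper29.GC
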