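import Pool.Agent.Helper29.GC.L1

set_option autoImplicit false

namespace Pool.Agent.Helper29.GC

open Finset

/-- Successor in a finite set ordered by an injective rank. -/
theorem exists_succ {V : Type*} (A : Finset V) (r : V → ℝ) (x b : V) (hb : b ∈ A)
    (hxb : r x < r b) : ∃ y ∈ A, r x < r y ∧ ∀ z ∈ A, r x < r z → r y ≤ r z := by
  classical
  obtain ⟨y, hy, hmin⟩ := Finset.exists_min_image {z ∈ A | r x < r z} r
    ⟨b, Finset.mem_filter.2 ⟨hb, hxb⟩⟩
  rw [Finset.mem_filter] at hy
  exact ⟨y, hy.1, hy.2, fun z hz hz' => hmin z (Finset.mem_filter.2 ⟨hz, hz'⟩)⟩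

theorem exists_pred {V : Type*} (A : Finset V) (r : V → ℝ) (x a : V) (ha : a ∈ A)
    (hxa : r a < r x) : ∃ y ∈ A, r y < r x ∧ ∀ z ∈ A, r z < r x → r z ≤ r y := by
  classical
  obtain ⟨y, hy, hmax⟩ := Finset.exists_max_image {z ∈ A | r z < r x} r
    ⟨a, Finset.mem_filter.2 ⟨ha, hxa⟩⟩
  rw [Finset.mem_filter] at hy
  exact ⟨y, hy.1, hy.2, fun z hz hz' => hmax z (Finset.mem_filter.2 ⟨hz, hz'⟩)⟩

/-- **Lines lemma.** The doubled arrangement of a family of ranked finite sets (the lines), each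
running from a fixed vertex to a fixed vertex, is 3-choosable. -/
theorem lines_choosable {V I : Type*} [Fintype V] [DecidableEq V] [Fintype I] [DecidableEq I]
    (θ : V → V) (hθ : ∀ v, θ (θ v) = v) (M : Finset V)
    (hMθ : ∀ v ∈ M, θ v ∉ M) (hV : ∀ v, v ∈ M ∨ θ v = v ∨ θ v ∈ M)
    (A : I → Finset V) (r : V → ℝ) (a b : I → V)
    (hinj : ∀ i, ∀ x ∈ A i, ∀ y ∈ A i, r x = r y → x = y)
    (ha : ∀ i, a i ∈ A i) (hb : ∀ i, b i ∈ A i)
    (hmin : ∀ i, ∀ x ∈ A i, r (a i) ≤ r x) (hmax : ∀ i, ∀ x ∈ A i, r x ≤ r (b i))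
    (hZa : ∀ i, θ (a i) = a i) (hZb : ∀ i, θ (b i) = b i)
    (hin : ∀ i, ∀ x ∈ A i, x ∉ M → x = a i ∨ x = b i)
    (hM : ∀ v ∈ M, #{i | v ∈ A i} = 2)
    (hZ : ∀ v, θ v = v → (#{i | a i = v} = 2 ∧ #{i | b i = v} = 0) ∨
      (#{i | a i = v} = 0 ∧ #{i | b i = v} = 2))
    (L : V → Finset ℕ) (hL : ∀ v, 3 ≤ #(L v)) :
    ∃ c : V → ℕ, (∀ v, c v ∈ L v) ∧ ∀ i, ∀ x ∈ A i, ∀ y ∈ A i, r x < r y →
      (∀ z ∈ A i, ¬ (r x < r z ∧ r z < r y)) → c x ≠ c y ∧ c (θ x) ≠ c (θ y) := by
  classical
  have hab : ∀ i, a i ≠ b i := by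
    intro i h
    rcases hZ (a i) (hZa i) with ⟨-, h2⟩ | ⟨h2, -⟩
    · have : i ∈ ({j | b j = a i} : Finset I) := by simp [h]
      rw [Finset.card_eq_zero] at h2
      rw [h2] at this; simp at this
    · have : i ∈ ({j | a j = a i} : Finset I) := by simp
      rw [Finset.card_eq_zero] at h2
      rw [h2] at this; simp at this
  have hlt : ∀ i, ∀ x ∈ A i, x ≠ b i → r x < r (b i) := fun i x hx hne =>
    lt_of_le_of_ne (hmax i x hx) fun h => hne (hinj i x hx _ (hb i) h)
  have hgt : ∀ i, ∀ x ∈ A i, x ≠ a i → r (a i) < r x := fun i x hx hne =>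
    lt_of_le_of_ne (hmin i x hx) fun h => hne (hinj i _ (ha i) x hx h).symm
  let E := {p : I × V // p.2 ∈ A p.1 ∧ p.2 ≠ b p.1}
  have hsucc : ∀ e : E, ∃ y ∈ A e.1.1, r e.1.2 < r y ∧ ∀ z ∈ A e.1.1, r e.1.2 < r z → r y ≤ r z :=
    fun e => exists_succ (A e.1.1) r e.1.2 (b e.1.1) (hb _) (hlt _ _ e.2.1 e.2.2)
  choose t ht1 ht2 ht3 using hsucc
  let s : E → V := fun e => e.1.2
  -- membership in `M` or fixed
  have hmf : ∀ i, ∀ x ∈ A i, x ∈ M ∨ θ x = x := by
    intro i x hx
    by_cases h : x ∈ M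
    · exact Or.inl h
    · rcases hin i x hx h with h | h
      · right; rw [h]; exact hZa i
      · right; rw [h]; exact hZb i
  have hMne : ∀ v ∈ M, θ v ≠ v := fun v hv h => hMθ v hv (by rw [h]; exact hv)
  -- number of edges out of a vertex
  have hcs : ∀ v, #{e : E | s e = v} = #{i | v ∈ A i ∧ v ≠ b i} := by
    intro v
    refine Finset.card_bij (fun e _ => e.1.1) ?_ ?_ ?_
    · intro e he
      rw [Finset.mem_filter] at he
      have h1 : e.1.2 = v := he.2
      simp only [Finset.mem_filter, Finset.mem_univ, true_and]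
      rw [← h1]; exact e.2
    · intro e he e' he' h
      rw [Finset.mem_filter] at he he'
      have h1 : e.1.2 = v := he.2
      have h2 : e'.1.2 = v := he'.2
      exact Subtype.ext (Prod.ext h (h1.trans h2.symm))
    · intro i hi
      simp only [Finset.mem_filter, Finset.mem_univ, true_and] at hi
      exact ⟨⟨(i, v), hi⟩, by simp [s], rfl⟩
  have hct : ∀ v, #{e : E | t e = v} = #{i | v ∈ A i ∧ v ≠ a i} := by
    intro v
    refine Finset.card_bij (fun e _ => e.1.1) ?_ ?_ ?_
    · intro e he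
      rw [Finset.mem_filter] at he
      simp only [Finset.mem_filter, Finset.mem_univ, true_and]
      rw [← he.2]
      refine ⟨ht1 e, fun h => ?_⟩
      have h1 := ht2 e
      rw [h] at h1
      exact absurd (hmin _ _ e.2.1) (not_le.2 h1)
    · intro e he e' he' h
      rw [Finset.mem_filter] at he he'
      have h1 : t e = v := he.2
      have h2 : t e' = v := he'.2
      have hA : e.1.2 ∈ A e'.1.1 := by have := e.2.1; rwa [show e.1.1 = e'.1.1 from h] at this
      have hA' : e'.1.2 ∈ A e.1.1 := by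
        have := e'.2.1; rwa [← show e.1.1 = e'.1.1 from h] at this
      have h3 : e.1.2 = e'.1.2 := by
        refine hinj _ _ e.2.1 _ hA' ?_
        by_contra hne
        rcases lt_or_gt_of_ne hne with h4 | h4
        · have h5 := ht3 e e'.1.2 hA' h4
          rw [h1, ← h2] at h5
          exact absurd (ht2 e') (not_lt.2 h5)
        · have h5 := ht3 e' e.1.2 hA h4
          rw [h2, ← h1] at h5
          exact absurd (ht2 e) (not_lt.2 h5)
      exact Subtype.ext (Prod.ext h h3)
    · intro i hi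
      simp only [Finset.mem_filter, Finset.mem_univ, true_and] at hi
      obtain ⟨y, hy1, hy2, hy3⟩ := exists_pred (A i) r v (a i) (ha i) (hgt i v hi.1 hi.2)
      have hyb : y ≠ b i := by
        intro h; rw [h] at hy2; exact absurd (hmax i v hi.1) (not_le.2 hy2)
      let e : E := ⟨(i, y), hy1, hyb⟩
      refine ⟨e, ?_, rfl⟩
      simp only [Finset.mem_filter, Finset.mem_univ, true_and]
      have h1 := ht3 e v hi.1 hy2
      refine hinj i _ (ht1 e) v hi.1 (le_antisymm h1 ?_)
      by_contra h2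
      have h3 := hy3 (t e) (ht1 e) (not_le.1 h2)
      exact absurd (ht2 e) (not_lt.2 h3)
  obtain ⟨c, hc1, hc2⟩ := double_choosable θ hθ M hMθ hV s t
    (fun e => hmf _ _ e.2.1) (fun e => hmf _ _ (ht1 e)) r ht2
    (by
      intro v hv
      have hva : ∀ i, v ≠ a i := fun i h => hMne v hv (by rw [h]; exact hZa i)
      have hvb : ∀ i, v ≠ b i := fun i h => hMne v hv (by rw [h]; exact hZb i)
      rw [hcs, hct]
      have := hM v hv
      constructor
      · rw [← this]; congr 1; ext i; simp [hvb i]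
      · rw [← this]; congr 1; ext i; simp [hva i])
    (by
      intro v hv
      have hvM : v ∉ M := fun h => hMne v h hv
      have h1 : #{e : E | s e = v} = #{i | a i = v} := by
        rw [hcs]
        congr 1; ext i
        simp only [Finset.mem_filter, Finset.mem_univ, true_and]
        constructor
        · rintro ⟨h1, h2⟩
          rcases hin i v h1 hvM with h | h
          · exact h.symm
          · exact absurd h h2
        · rintro rfl
          exact ⟨ha i, hab i⟩
      have h2 : #{e : E | t e = v} = #{i | b i = v} := by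
        rw [hct]
        congr 1; ext i
        simp only [Finset.mem_filter, Finset.mem_univ, true_and]
        constructor
        · rintro ⟨h1, h2⟩
          rcases hin i v h1 hvM with h | h
          · exact absurd h h2
          · exact h.symm
        · rintro rfl
          exact ⟨hb i, (hab i).symm⟩
      rw [h1, h2]
      exact hZ v hv)
    L hL
  refine ⟨c, hc1, fun i x hx y hy hxy hcons => ?_⟩
  have hxb : x ≠ b i := by
    intro h; rw [h] at hxy; exact absurd (hmax i y hy) (not_le.2 hxy)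
  let e : E := ⟨(i, x), hx, hxb⟩
  have h1 : t e = y := by
    have h2 := ht3 e y hy hxy
    refine hinj i _ (ht1 e) y hy (le_antisymm h2 ?_)
    by_contra h3
    exact hcons (t e) (ht1 e) ⟨ht2 e, not_le.1 h3⟩
  have h2 := hc2 e
  rw [h1] at h2
  exact h2

end Pool.Agent.Helper29.GC
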